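import Pool.Agent.Q6.Quan.Main

/-!
# MP_4dd1f4_al: trivial quandles as fibres of doubly transitive homomorphisms

No doubly transitive homomorphism of quandles has a fibre with exactly six elements. In particular
the trivial quandle of order `6` is not a fibre of any doubly transitive homomorphism, which
answers Q1 in the negative (the negated form holds with `n = 6`).
-/

namespace Pool.Agent.Results.MP_4dd1f4_al.NoFiberOfOrderSix

open Q6.Quan Quandles

universe u v

theorem result {P : Type u} {Q : Type v} [Quandle P] [Quandle Q] (f : P →◃ Q)
    (hf : DoublyTransitive f) (q : Q) : Nat.card {x : P // f x = q} ≠ 6 :=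
  no_six hf q

end Pool.Agent.Results.MP_4dd1f4_al.NoFiberOfOrderSix
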